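import Pool.Agent.L5helper87.QG.Asy
import Pool.Agent.L5helper87.QG.Easy
import Pool.Agent.L5helper87.QG.Const

/-!
# Goldreich's function is one-way against quantum algorithms of bounded time and space

Goldreich (2000) suggested the following candidate for a one-way function: every output bit is a
fixed predicate of few input bits, which are the neighbours of the output in a random graph `G`. The
predicates here are `x_1 + ... + x_k + g (x_{k+1}, ..., x_{k+e})` (mod 2), with an arbitrary
function `g`, where `e ≤ k`; there are `n` input bits and `m ≥ 2 n` output bits.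

We prove unconditionally that no quantum algorithm, uniform or not, with random access to its input
(the oracle may be asked in superposition) and with intermediate measurements inverts these
functions if time × (number of qubits) is smaller than `n ^ 2`, up to a constant factor for a
constant locality `k + e` (functions in NC⁰), and this is sharp for all sizes of the memory if
`g = 0`. The computation between the queries is free, and the algorithm may depend on the graph in
an arbitrary way. It is also hard to find any `N` bits of a preimage.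

Definitions: `QProg`, `QProg.run`, `QProg.Wrote`, `QProg.Finds`, `QProg.chance`, `QProg.prob`,
`qsuccess` are in `Pool.Agent.L5helper87.QG.Defs`; `qavg` in `Pool.Agent.L5helper87.QG.Const`; `col`
and `seed` in `Pool.Agent.L5helper87.QG.Seed`; `loc` in `Pool.Agent.L5helper87.OWF.Loc`.

Proof. A run is divided into blocks of `D` steps. The probability of a list of outcomes in a block,
for the maximally mixed state at its beginning, is a nonnegative polynomial of degree `2 D` in the
signs of the output bits, and the true probability is at most `s` times as large. If `G` expands, the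
sum over `x` of a character of the outputs in a small set `R`, where the bits of `x` in a set `O` are
given, is zero unless almost all the private neighbours of `R` are in `O`; the union `A` of these
sets `R` is small. So the polynomial may be replaced by its average over the outputs outside `A`,
and the numbers of the solutions of the equations in `A`, with and without the conditions in `O`, are
known up to a factor `2 ^ (|O| / 4)`. Hence a nonnegative polynomial of low degree is concentrated
on the points with given bits in `O` with weight at most `2 ^ (- 3 |O| / 4)` only. The functions are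
not injective; the numbers of preimages are controlled by the expected number of collisions.
-/

set_option autoImplicit false

open Filter

namespace Pool.Agent.L5helper87.Retired.QuantumTimeSpace

open Pool.Agent.L5helper87.OWF Pool.Agent.L5helper87.QG

/-- Let `loc g G x` be the value of the local function with the graph `G : Fin m → Fin (k+e) → Fin n`
and the predicate `x_1 + ... + x_k + g (x_{k+1}, ..., x_{k+e})`.
(1) It is computed with certainty by a program with `e + 1` bits of memory, in `m (k + e) + 1`
steps.
(2) Let `m = 2 n`, `k ≥ 16`, `e ≤ k`. For all but a fraction `2 ^ 11 k / n` of the graphs (seeded: the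
first neighbour of the output `i` is `i mod n`) the following holds for EVERY quantum program with
`s` basis states and all `T ≥ n`, `N ≤ n`: if `T log₂ (n s) ≤ N n / (2 ^ 36 k)`, then for random `x`
the probability that it writes in `T` steps at least `N` bits of some preimage of the value at `x`,
and nothing else, is at most `2 * 2 ^ (- N n / (2 ^ 32 k T))`.
(3) Let `m ≥ 2 n`, `k ≥ 8`, `e ≤ k`, `n ^ 2 ≤ 2 ^ k`, `n ≥ 2 ^ 18 k`. If `T log₂ (n s) ≤
N n / (2 ^ 26 k)`, then for random `G` and `x` this probability is at most
`2 m / 4 ^ k + 2 * 2 ^ (- N n / (2 ^ 22 k T))`; the program may depend on `G` in an arbitrary way.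
(4) For `k = e = ⌊log₂ n⌋ ^ 2` and `2 n ≤ m ≤ n ^ d` this probability is negligible if
`T log₂ (n s) ≤ N n / (log n) ^ 5`.
(5) For `g = 0`, all `G` and all `S` there is a program with `S` bits of memory which finds all the
`n` bits of a preimage with certainty in `⌈n / S⌉ m + 1` steps. -/
theorem result :
    (∀ (n m k e : ℕ) (g : (Fin e → ZMod 2) → ZMod 2) (G : Fin m → Fin (k + e) → Fin n),
      0 < n → 0 < k → ∃ P : QProg n m (2 ^ (e + 1)), ∀ x : Fin n → ZMod 2,
        P.chance x (m * (k + e) + 1) (fun a => P.Finds a m (loc g G x)) = 1) ∧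
    (∀ (n k e : ℕ) (g : (Fin e → ZMod 2) → ZMod 2), 16 ≤ k → e ≤ k →
      ∃ Bad : Finset (Fin (2 * n) → Fin (k + e) → Fin n),
        Bad.card * n ≤ 2 ^ 11 * k * n ^ (2 * n * (k + e)) ∧
        ∀ G, G ∉ Bad → ∀ (s T N : ℕ) (P : QProg (2 * n) n s), n ≤ T → N ≤ n →
          (T : ℝ) * Real.logb 2 (n * s) ≤ N * n / (2 ^ 36 * k) →
          qavg g (seed G) P T N ≤ 2 * (2 : ℝ) ^ (-((N : ℝ) * n / (2 ^ 32 * k * T)))) ∧
    (∀ (n m k e s T N : ℕ) (g : (Fin e → ZMod 2) → ZMod 2)
      (P : (Fin m → Fin (k + e) → Fin n) → QProg m n s),
      8 ≤ k → e ≤ k → 2 ^ 18 * k ≤ n → n ^ 2 ≤ 2 ^ k → 2 * n ≤ m → n ≤ T → N ≤ n →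
      (T : ℝ) * Real.logb 2 (n * s) ≤ N * n / (2 ^ 26 * k) →
      qsuccess g P T N ≤ 2 * m / 4 ^ k + 2 * (2 : ℝ) ^ (-((N : ℝ) * n / (2 ^ 22 * k * T)))) ∧
    (∀ (g : ∀ n : ℕ, (Fin (Nat.log 2 n ^ 2) → ZMod 2) → ZMod 2) (m s T N : ℕ → ℕ) (d : ℕ)
      (P : ∀ n, (Fin (m n) → Fin (Nat.log 2 n ^ 2 + Nat.log 2 n ^ 2) → Fin n) →
        QProg (m n) n (s n)),
      (∀ᶠ n in atTop, 2 * n ≤ m n ∧ m n ≤ n ^ d) →
      (∀ᶠ n in atTop, n ≤ T n ∧ N n ≤ n ∧
        (T n : ℝ) * Real.logb 2 (n * s n) ≤ N n * n / (Nat.log 2 n) ^ 5) →
      ∀ c : ℕ, ∀ᶠ n in atTop, qsuccess (g n) (P n) (T n) (N n) < 1 / (n : ℝ) ^ c) ∧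
    ∀ (n m k e S : ℕ) (G : Fin m → Fin (k + e) → Fin n), 0 < S → 0 < m →
      ∃ P : QProg m n (2 ^ S), ∀ x : Fin n → ZMod 2,
        P.prob (fun _ => 0) G ((n + S - 1) / S * m + 1) n x = 1 :=
  ⟨fun _ _ _ _ g G hn hk => easy_prog hn hk g G,
    fun n _ _ g hk he => seed_good n g hk he,
    fun _ _ _ _ _ _ _ g P hk he hkn hnk hm hT hN hcon =>
      qsuccess_le' g P hk he hkn hnk hm hT hN hcon,
    fun g m s T N d P hm h c => qsuccess_negl g m s T N d hm P h c,
    fun _ _ _ _ _ G hS hm => linear_prog hS hm G⟩

end Pool.Agent.L5helper87.Retired.QuantumTimeSpace
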