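import Pool.Agent.L5helper87.SW.Turing

/-!
# Symmetric circuits cannot decide short halting with fixed-parameter size

A machine with states and symbols `0, …, n - 1` is a table `x : Tab n → Bool` of `5`-tuples. Names of
states and symbols do not matter, except for the start state, the halting state and the blank. A
circuit on such tables is symmetric if every renaming of the states and symbols that fixes these
extends to an automorphism of the circuit. The gates of our circuits compute arbitrary symmetric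
Boolean functions of unbounded fan-in.
-/

set_option autoImplicit false

open Filter

namespace Pool.Agent.Results.MP_7836d5_lc.SymmetricCircuits

open Pool.Agent.L5helper42.Sym Pool.Agent.L5helper58.KS Pool.Agent.L5helper87.SW

/-- Symmetric circuits, with arbitrary symmetric gates, that decide for machines with `n` states and
`n` symbols whether they can halt within `k` steps need `n ^ (⌊√(k + 2)⌋ / 2 - ε)` gates; hence no
function `f` and constant `c` are such that they can have at most `f k * n ^ c` gates. -/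
theorem result :
    (∀ k : ℕ, 34 ≤ k → ∀ θ : ℝ, θ < (Nat.sqrt (k + 2) / 2 : ℕ) →
      ∀ᶠ n : ℕ in atTop, ∀ (s : ℕ) (C : Circ (Tab n) s), Symmetric C →
        (∀ x : Tab n → Bool, C.val x C.out = true ↔ Halts (machineOf x) k) → (n : ℝ) ^ θ ≤ s) ∧
    (∀ (f : ℕ → ℕ) (c : ℕ), ∀ᶠ k : ℕ in atTop, ∀ᶠ n : ℕ in atTop,
      ∀ (s : ℕ) (C : Circ (Tab n) s), Symmetric C →
        (∀ x : Tab n → Bool, C.val x C.out = true ↔ Halts (machineOf x) k) → f k * n ^ c < s) := by
  have main : ∀ k : ℕ, 34 ≤ k → ∀ θ : ℝ, θ < (Nat.sqrt (k + 2) / 2 : ℕ) →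
      ∀ᶠ n : ℕ in atTop, ∀ (s : ℕ) (C : Circ (Tab n) s), Symmetric C →
        (∀ x : Tab n → Bool, C.val x C.out = true ↔ Halts (machineOf x) k) → (n : ℝ) ^ θ ≤ s := by
    intro k hk θ hθ
    have h6 : 6 ≤ Nat.sqrt (k + 2) := Nat.le_sqrt.2 (by omega)
    obtain ⟨κ, hκ⟩ : ∃ κ, Nat.sqrt (k + 2) = κ + 1 := ⟨Nat.sqrt (k + 2) - 1, by omega⟩
    have h1 : κ * κ + 2 * κ ≤ k + 1 := by
      have h2 := Nat.sqrt_le (k + 2)
      rw [hκ] at h2
      nlinarith
    have h3 : Nat.sqrt (k + 2) / 2 = (κ - 1) / 2 + 1 := by omega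
    refine halting_asymptotic (κ := κ) (t := (κ - 1) / 2) h1 (by omega) (by omega) ?_
    rw [h3] at hθ
    push_cast at hθ ⊢
    exact hθ
  refine ⟨main, fun f c => ?_⟩
  filter_upwards [eventually_ge_atTop (max 34 ((2 * (c + 1)) ^ 2))] with k hk
  have hk1 : 34 ≤ k := (le_max_left _ _).trans hk
  have hk2 : (2 * (c + 1)) ^ 2 ≤ k := (le_max_right _ _).trans hk
  have hc : c + 1 ≤ Nat.sqrt (k + 2) / 2 := by
    rw [Nat.le_div_iff_mul_le (by norm_num)]
    exact Nat.le_sqrt'.2 (by nlinarith)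
  have hθ : (c : ℝ) + 1 / 2 < (Nat.sqrt (k + 2) / 2 : ℕ) := by
    have : ((c + 1 : ℕ) : ℝ) ≤ (Nat.sqrt (k + 2) / 2 : ℕ) := by exact_mod_cast hc
    push_cast at this ⊢
    linarith
  have hlim : Tendsto (fun n : ℕ => (n : ℝ) ^ (1 / 2 : ℝ)) atTop atTop :=
    (tendsto_rpow_atTop (by norm_num)).comp tendsto_natCast_atTop_atTop
  filter_upwards [main k hk1 _ hθ, hlim.eventually_gt_atTop (f k : ℝ), eventually_ge_atTop 1] with n
    h1 h2 h3 s C hC hdec
  have h4 := h1 s C hC hdec
  have hn0 : (0 : ℝ) < n := by exact_mod_cast h3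
  have h5 : ((f k * n ^ c : ℕ) : ℝ) < s := by
    calc ((f k * n ^ c : ℕ) : ℝ) = (f k : ℝ) * (n : ℝ) ^ (c : ℝ) := by
          rw [Real.rpow_natCast]
          push_cast
          rfl
      _ < (n : ℝ) ^ (1 / 2 : ℝ) * (n : ℝ) ^ (c : ℝ) :=
          mul_lt_mul_of_pos_right h2 (Real.rpow_pos_of_pos hn0 _)
      _ = (n : ℝ) ^ ((c : ℝ) + 1 / 2) := by
          rw [← Real.rpow_add hn0]
          congr 1
          ring
      _ ≤ s := h4
  exact_mod_cast h5

end Pool.Agent.Results.MP_7836d5_lc.SymmetricCircuits
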